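import Mathlib
import Pool.Agent.Helper18.PB.Defs

set_option autoImplicit false

/-!
# Packet A3 of the Lindenstrauss property B project (MP_b9cb57_an)
-/

namespace Pool.Agent.Helper49.PB

open Pool.Agent.Helper18.PB

universe u

theorem a3 : GB.{u} → GD.{u} := by
  intro hGB X _ _ _ f g R x e θ σ N hx he hθ hσ hσ1 hN hyp
  have hN1 : (1 : ℝ) ≤ N := by exact_mod_cast hN
  have hN0 : (0 : ℝ) < N := by linarith
  have hη : 0 < 26 * (e / θ) / σ := by positivity
  have hθη : θ * (26 * (e / θ) / σ) = 26 * e / σ := by field_simp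
  obtain ⟨g', ω, x', t, hx', ht0, ht, hω, hg', hxx, hmain⟩ :=
    hGB X f g x e θ (26 * (e / θ) / σ) N hx he hθ hη hN (fun y hy => by
      have h1 := hyp y hy
      have h2 : 0 ≤ R (y - x) := apply_nonneg R _
      linarith)
  obtain ⟨η, hηd⟩ : ∃ η : ℝ, η = 26 * (e / θ) / σ := ⟨_, rfl⟩
  rw [← hηd] at hη hθη hω hg' hxx ⊢
  have hes : e ≤ e / σ := by
    rw [le_div_iff₀ hσ]; nlinarith
  have hxx' : ‖x' - x‖ ≤ σ := by
    rw [hθη] at hxx
    have h1 : 26 * e * ‖x' - x‖ ≤ 17 * e * σ := by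
      have h2 := mul_le_mul_of_nonneg_right hxx hσ.le
      have h3 : 26 * e / σ * ‖x' - x‖ * σ = 26 * e * ‖x' - x‖ := by field_simp
      linarith
    have h4 : ‖x' - x‖ ≤ 17 * σ / 26 := by
      rw [le_div_iff₀ (by norm_num)]
      have h5 : e * (‖x' - x‖ * 26) ≤ e * (17 * σ) := by nlinarith
      exact le_of_mul_le_mul_left h5 he
    linarith
  refine ⟨g', ω, x', t, hx', ht0, ht, hω, hg', hxx', fun y hy => ?_⟩
  have hN2 : 3 * e / (N : ℝ) ^ 2 ≤ 3 * e := by
    apply div_le_self (by positivity)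
    nlinarith
  have hθη0 : 0 < θ * η := by positivity
  -- (a)
  have hF : ∀ z : X, (f + t • (g - ω)) z = f z + t * g z - t * ω z := by
    intro z
    simp only [add_apply, smul_apply,
      sub_apply, smul_eq_mul]
    ring
  have ha := hmain x hx
  have ha' : (f + t • (g - ω)) (x - x') ≤ 3 * e / (N : ℝ) ^ 2 := by
    have : 0 ≤ θ / (16 * N) * |g' (x - x')| := by positivity
    linarith
  have hωb : ∀ z : X, |ω z| ≤ η * ‖z‖ := fun z =>
    (ω.le_opNorm z).trans (mul_le_mul_of_nonneg_right hω (norm_nonneg _))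
  -- (c)
  have hR1 : R (x' - x) ≤ 9 * e := by
    have h1 := hyp x' hx'
    have h2 : x - x' = -(x' - x) := by abel
    rw [h2, map_neg, hF] at ha'
    have h3 := hωb (x' - x)
    have h4 := abs_le.mp h3
    have h5 : t * g (x' - x) ≤ t * |g (x' - x)| := mul_le_mul_of_nonneg_left (le_abs_self _) ht0
    have h6 : t * |g (x' - x)| ≤ θ * |g (x' - x)| :=
      mul_le_mul_of_nonneg_right (by linarith) (abs_nonneg _)
    have h7 : -(t * ω (x' - x)) ≤ t * (η * ‖x' - x‖) := by
      have := mul_le_mul_of_nonneg_left h4.1 ht0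
      linarith
    have h8 : t * (η * ‖x' - x‖) ≤ θ / 4 * (η * ‖x' - x‖) :=
      mul_le_mul_of_nonneg_right ht (by positivity)
    have h9 : θ / 4 * (η * ‖x' - x‖) ≤ 17 * e / 4 := by linarith
    linarith
  have hR2 : R (y - x') ≤ R (y - x) + 9 * e := by
    have h1 : y - x' = (y - x) + -(x' - x) := by abel
    rw [h1]
    have h2 := map_add_le_add R (y - x) (-(x' - x))
    have h3 : R (-(x' - x)) = R (x' - x) := map_neg_eq_map R _
    linarith
  -- (b)
  have hb : (f + t • (g - ω)) (y - x') ≤ e - R (y - x) + θ * η / 2 + 3 * e := by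
    have h1 : y - x' = (y - x) + (x - x') := by abel
    rw [h1, map_add]
    have h2 : (f + t • (g - ω)) (y - x) ≤ e - R (y - x) + θ * η / 2 := by
      rw [hF]
      have h3 := hyp y hy
      have h4 := abs_le.mp (hωb (y - x))
      have h5 : t * g (y - x) ≤ t * |g (y - x)| := mul_le_mul_of_nonneg_left (le_abs_self _) ht0
      have h6 : t * |g (y - x)| ≤ θ * |g (y - x)| :=
        mul_le_mul_of_nonneg_right (by linarith) (abs_nonneg _)
      have h7 : ‖y - x‖ ≤ 2 := by
        have := norm_sub_le y x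
        linarith
      have h8 : -(t * ω (y - x)) ≤ t * (η * ‖y - x‖) := by
        have := mul_le_mul_of_nonneg_left h4.1 ht0
        linarith
      have h9 : t * (η * ‖y - x‖) ≤ θ / 4 * (η * 2) := by
        apply mul_le_mul ht _ (by positivity) (by positivity)
        exact mul_le_mul_of_nonneg_left h7 hη.le
      linarith
    linarith
  have hstar : (f + t • (g - ω)) (y - x') + R (y - x') ≤ 26 * e / σ := by
    have h1 : θ * η / 2 = 13 * (e / σ) := by rw [hθη]; ring
    have h2 : 26 * e / σ = 26 * (e / σ) := by ring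
    rw [h2]
    linarith
  -- (d)
  have hm := hmain y hy
  obtain ⟨l, hl⟩ : ∃ l : ℝ, l = σ / (9 * (N : ℝ) ^ 2) := ⟨_, rfl⟩
  have hl0 : 0 ≤ l := by rw [hl]; positivity
  have hl1 : l ≤ 1 / 2 := by
    rw [hl, div_le_iff₀ (by positivity)]
    nlinarith
  rw [← hl]
  have k1 := mul_le_mul_of_nonneg_left hm (show 0 ≤ 1 - l by linarith)
  have k2 := mul_le_mul_of_nonneg_left hstar hl0
  have k3 : l * (26 * e / σ) = 26 * e / (9 * (N : ℝ) ^ 2) := by rw [hl]; field_simp
  have k4 : (1 - l) * (3 * e / (N : ℝ) ^ 2) ≤ 3 * e / (N : ℝ) ^ 2 := by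
    have : 0 ≤ 3 * e / (N : ℝ) ^ 2 := by positivity
    nlinarith
  have k5 : 3 * e / (N : ℝ) ^ 2 + 26 * e / (9 * (N : ℝ) ^ 2) ≤ 6 * e / (N : ℝ) ^ 2 := by
    have h1 : 3 * e / (N : ℝ) ^ 2 + 26 * e / (9 * (N : ℝ) ^ 2) =
        (53 / 9) * (e / (N : ℝ) ^ 2) := by field_simp; ring
    have h2 : 6 * e / (N : ℝ) ^ 2 = 6 * (e / (N : ℝ) ^ 2) := by ring
    rw [h1, h2]
    have : 0 ≤ e / (N : ℝ) ^ 2 := by positivity
    linarith
  have k6 : θ / (32 * N) * |g' (y - x')| ≤ (1 - l) * (θ / (16 * N) * |g' (y - x')|) := by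
    have h1 : θ / (32 * N) * |g' (y - x')| = 1 / 2 * (θ / (16 * N) * |g' (y - x')|) := by
      field_simp; ring
    rw [h1]
    apply mul_le_mul_of_nonneg_right (by linarith)
    positivity
  nlinarith [k1, k2, k3, k4, k5, k6]

end Pool.Agent.Helper49.PB
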